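import Mathlib

/-!
# The space of continuous self-maps of `ω*` is not Čech-complete
-/

open Set Filter Topology

universe u

namespace Pool.Agent.Results.MP_7e6923_gt.NotCechComplete

/-- The remainder `ω* = βω \ ω`: the space of nonprincipal ultrafilters on `ω`. -/
abbrev Star : Type := {u : Ultrafilter ℕ // ∀ n : ℕ, u ≠ pure n}

theorem singleton_notMem {a : Ultrafilter ℕ} (ha : ∀ n : ℕ, a ≠ pure n) (i : ℕ) : {i} ∉ a := by
  intro h
  apply ha i
  symm
  apply Ultrafilter.coe_injective
  have h1 : (a : Filter ℕ) ≤ ((pure i : Ultrafilter ℕ) : Filter ℕ) := by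
    intro s hs
    have hs' : i ∈ s := hs
    exact mem_of_superset h (by simpa using hs')
  have h2 : a = pure i := Ultrafilter.coe_le_coe.1 h1
  rw [h2]

theorem le_cofinite {a : Ultrafilter ℕ} (ha : ∀ n : ℕ, a ≠ pure n) : (a : Filter ℕ) ≤ cofinite := by
  rw [le_cofinite_iff_compl_singleton_mem]
  intro n
  exact Ultrafilter.compl_mem_iff_notMem.2 (singleton_notMem ha n)

theorem isClosed_star : IsClosed {u : Ultrafilter ℕ | ∀ n : ℕ, u ≠ pure n} := by
  have : {u : Ultrafilter ℕ | ∀ n : ℕ, u ≠ pure n} = ⋂ n : ℕ, {u | ({n} : Set ℕ)ᶜ ∈ u} := by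
    ext u
    simp only [mem_ofPred_eq, mem_iInter]
    constructor
    · intro h n
      exact Ultrafilter.compl_mem_iff_notMem.2 (singleton_notMem h n)
    · intro h n hn
      have := h n
      rw [hn] at this
      exact this rfl
  rw [this]
  exact isClosed_iInter fun n => ultrafilter_isClosed_basic _

instance : CompactSpace Star := isCompact_iff_compactSpace.1 isClosed_star.isCompact

/-- The clopen subset of `ω*` given by `B ⊆ ω`. -/
def St (B : Set ℕ) : Set Star := {t | B ∈ (t : Ultrafilter ℕ)}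

theorem isClopen_St (B : Set ℕ) : IsClopen (St B) :=
  ⟨(ultrafilter_isClosed_basic B).preimage continuous_subtype_val,
    (ultrafilter_isOpen_basic B).preimage continuous_subtype_val⟩

theorem exists_mem_St {A : Set ℕ} (hA : A.Infinite) : ∃ t : Star, t ∈ St A := by
  have : (cofinite ⊓ 𝓟 A).NeBot := by
    rw [inf_principal_neBot_iff]
    intro U hU
    rw [mem_cofinite] at hU
    by_contra hcon
    rw [not_nonempty_iff_eq_empty] at hcon
    apply hA
    refine hU.subset fun a ha ha' => ?_
    have : a ∈ U ∩ A := ⟨ha', ha⟩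
    rw [hcon] at this
    exact this
  refine ⟨⟨Ultrafilter.of (cofinite ⊓ 𝓟 A), fun n hn => ?_⟩, ?_⟩
  · have h1 : ({n} : Set ℕ)ᶜ ∈ Ultrafilter.of (cofinite ⊓ 𝓟 A) :=
      (Ultrafilter.of_le _).trans inf_le_left (by simp)
    rw [hn] at h1
    exact h1 rfl
  · exact Ultrafilter.of_le (cofinite ⊓ 𝓟 A) (mem_inf_of_right (mem_principal_self A))

theorem infinite_of_mem {A : Set ℕ} {t : Star} (h : t ∈ St A) : A.Infinite := by
  intro hfin
  have h1 : Aᶜ ∈ (t : Ultrafilter ℕ) := le_cofinite t.2 (by rw [mem_cofinite, compl_compl]; exact hfin)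
  exact (Ultrafilter.compl_mem_iff_notMem.1 h1) h

theorem St_nhds {x : Star} {V : Set Star} (hV : V ∈ 𝓝 x) : ∃ B : Set ℕ, x ∈ St B ∧ St B ⊆ V := by
  obtain ⟨W, hWV, hWo, hxW⟩ := mem_nhds_iff.1 hV
  obtain ⟨W', hW', rfl⟩ := isOpen_induced_iff.1 hWo
  obtain ⟨_, ⟨B, rfl⟩, hB, hBW⟩ := ultrafilterBasis_is_basis.exists_subset_of_mem_open hxW hW'
  exact ⟨B, hB, fun t ht => hWV (hBW ht)⟩

/-- Neighbourhoods of constant maps. -/
theorem nhds_const {x : Star} {N : Set C(Star, Star)}
    (hN : N ∈ 𝓝 (ContinuousMap.const Star x : C(Star, Star))) :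
    ∃ B : Set ℕ, x ∈ St B ∧ {f : C(Star, Star) | ∀ t, f t ∈ St B} ⊆ N := by
  obtain ⟨⟨K, V⟩, ⟨hK, hV⟩, h⟩ := ((𝓝 x).basis_sets.nhds_continuousMapConst).mem_iff.1 hN
  obtain ⟨B, hB, hBV⟩ := St_nhds hV
  exact ⟨B, hB, fun f hf => h fun t _ => hBV (hf t)⟩

/-- A pseudo-intersection. -/
theorem exists_pseudo {x : Star} {B : ℕ → Set ℕ} (hB : ∀ n, x ∈ St (B n)) :
    ∃ A : Set ℕ, A.Infinite ∧ ∀ n, St A ⊆ St (B n) := by
  have h1 : ∀ n, {k | ∀ m ≤ n, k ∈ B m}.Infinite := by
    intro n
    apply infinite_of_mem (t := x)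
    show {k | ∀ m ≤ n, k ∈ B m} ∈ (x : Ultrafilter ℕ)
    have : {k | ∀ m ≤ n, k ∈ B m} = ⋂ m ∈ Iic n, B m := by ext k; simp
    rw [this]
    exact (biInter_mem (finite_Iic n)).2 fun m _ => hB m
  have h2 : ∀ n, ∃ k, n ≤ k ∧ ∀ m ≤ n, k ∈ B m := by
    intro n
    obtain ⟨k, hk, hkn⟩ := (h1 n).exists_gt n
    exact ⟨k, hkn.le, hk⟩
  choose a ha haB using h2
  refine ⟨range a, ?_, ?_⟩
  · intro hfin
    obtain ⟨b, hb⟩ := hfin.bddAbove
    have := hb ⟨b + 1, rfl⟩
    have := ha (b + 1)
    omega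
  · intro n t ht
    have h3 : (a '' Iio n)ᶜ ∈ (t : Ultrafilter ℕ) := le_cofinite t.2
      (by rw [mem_cofinite, compl_compl]; exact (finite_Iio n).image a)
    have ht' : range a ∈ (t : Ultrafilter ℕ) := ht
    show B n ∈ (t : Ultrafilter ℕ)
    filter_upwards [ht', h3] with k hk hk'
    obtain ⟨i, rfl⟩ := hk
    have : n ≤ i := by
      by_contra hcon
      exact hk' ⟨i, by simpa using hcon, rfl⟩
    exact haB i n this

open Classical in
/-- A map with two values. -/
noncomputable def two (D : Set ℕ) (a b : Star) : C(Star, Star) where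
  toFun t := if t ∈ St D then a else b
  continuous_toFun := by
    apply continuous_if
    · intro t ht
      have := (isClopen_St D).frontier_eq
      have h2 : t ∈ frontier (St D) := ht
      rw [this] at h2
      exact absurd h2 (notMem_empty _)
    · exact continuous_const.continuousOn
    · exact continuous_const.continuousOn

/-- The set of all maps with values in a nonempty clopen set is not compact. -/
theorem not_compact {A : Set ℕ} (hA : A.Infinite) :
    ¬ IsCompact {f : C(Star, Star) | ∀ t, f t ∈ St A} := by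
  intro hcomp
  -- two points of `St A`
  let s := hA.natEmbedding
  let B : Set ℕ := range fun k => (s (2 * k) : ℕ)
  have hBA : B ⊆ A := by
    rintro _ ⟨k, rfl⟩
    exact (s (2 * k)).2
  have hB : B.Infinite := infinite_range_of_injective fun a b h => by
    have := s.injective (Subtype.ext h)
    omega
  have hAB : (A \ B).Infinite := by
    refine (infinite_range_of_injective (f := fun k => (s (2 * k + 1) : ℕ)) fun a b h => ?_).mono ?_
    · have := s.injective (Subtype.ext h)
      omega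
    · rintro _ ⟨k, rfl⟩
      refine ⟨(s (2 * k + 1)).2, ?_⟩
      rintro ⟨l, hl⟩
      have := s.injective (Subtype.ext hl)
      omega
  obtain ⟨a, ha⟩ := exists_mem_St hB
  obtain ⟨b, hb⟩ := exists_mem_St hAB
  have haA : a ∈ St A := mem_of_superset ha hBA
  have hbA : b ∈ St A := mem_of_superset hb (fun x hx => hx.1)
  have hbB : b ∉ St B := by
    intro h
    obtain ⟨x, hx, hx'⟩ := Ultrafilter.nonempty_of_mem (inter_mem h hb)
    exact hx'.2 hx
  -- infinitely many different clopen sets
  let D : ℕ → Set ℕ := fun k => range (Nat.pair k)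
  have hD : ∀ k l, St (D k) = St (D l) → k = l := by
    intro k l h
    obtain ⟨t, ht⟩ := exists_mem_St (A := D k)
      (infinite_range_of_injective fun i j hij => (Nat.pair_eq_pair.1 hij).2)
    have ht' : t ∈ St (D l) := by rw [← h]; exact ht
    obtain ⟨x, ⟨i, hi⟩, ⟨j, hj⟩⟩ := Ultrafilter.nonempty_of_mem (inter_mem ht ht')
    rw [← hj] at hi
    exact (Nat.pair_eq_pair.1 hi).1
  let g : ℕ → C(Star, Star) := fun k => two (D k) a b
  have hg : ∀ k t, g k t ∈ St B ↔ t ∈ St (D k) := by
    intro k t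
    by_cases ht : t ∈ St (D k)
    · have : g k t = a := if_pos ht
      rw [this]
      exact ⟨fun _ => ht, fun _ => ha⟩
    · have : g k t = b := if_neg ht
      rw [this]
      exact ⟨fun h => absurd h hbB, fun h => absurd h ht⟩
  have hgT : ∀ k, g k ∈ {f : C(Star, Star) | ∀ t, f t ∈ St A} := by
    intro k t
    by_cases ht : t ∈ St (D k)
    · have : g k t = a := if_pos ht
      rw [this]; exact haA
    · have : g k t = b := if_neg ht
      rw [this]; exact hbA
  obtain ⟨f, -, hf⟩ := hcomp.exists_mapClusterPt (u := g) (f := atTop)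
    (tendsto_principal.2 (Eventually.of_forall hgT))
  let G : Set Star := f ⁻¹' (St B)
  have hG : IsClopen G := (isClopen_St B).preimage f.continuous
  let N : Set C(Star, Star) := {h | MapsTo h G (St B)} ∩ {h | MapsTo h Gᶜ (St B)ᶜ}
  have hN : N ∈ 𝓝 f := by
    apply inter_mem
    · exact (ContinuousMap.isOpen_setOfPred_mapsTo hG.isClosed.isCompact
        (isClopen_St B).isOpen).mem_nhds (fun t ht => ht)
    · exact (ContinuousMap.isOpen_setOfPred_mapsTo hG.compl.isClosed.isCompact
        (isClopen_St B).compl.isOpen).mem_nhds (fun t ht => ht)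
  have hNG : ∀ k, g k ∈ N → St (D k) = G := by
    rintro k ⟨h1, h2⟩
    ext t
    rw [← hg k t]
    constructor
    · intro h
      by_contra hcon
      exact h2 hcon h
    · intro h
      exact h1 h
  have hfreq := (mapClusterPt_iff_frequently.1 hf) N hN
  obtain ⟨k, -, hk⟩ := frequently_atTop.1 hfreq 0
  obtain ⟨l, hl, hl'⟩ := frequently_atTop.1 hfreq (k + 1)
  have := hD k l ((hNG k hk).trans (hNG l hl').symm)
  omega

/-- **Main theorem.** The space `C_k(ω*, ω*)` is not a `G_δ` subset of any compact Hausdorff space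
in which it is embedded; so it is not Čech-complete. -/
theorem result (b : Type u) [TopologicalSpace b] [CompactSpace b] [T2Space b]
    (e : C(Star, Star) → b) (he : IsEmbedding e) : ¬ IsGδ (range e) := by
  intro hG
  obtain ⟨O, hO, hOe⟩ := isGδ_iff_eq_iInter_nat.1 hG
  obtain ⟨x, -⟩ := exists_mem_St (A := Set.univ) infinite_univ
  let f : C(Star, Star) := ContinuousMap.const Star x
  have hfO : ∀ n, e f ∈ O n := fun n => by
    have : e f ∈ ⋂ n, O n := by rw [← hOe]; exact ⟨f, rfl⟩
    exact mem_iInter.1 this n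
  have h1 : ∀ n, ∃ K ∈ 𝓝 (e f), IsClosed K ∧ K ⊆ O n := fun n =>
    exists_mem_nhds_isClosed_subset ((hO n).mem_nhds (hfO n))
  choose K hK hKc hKO using h1
  have h2 : ∀ n, ∃ B : Set ℕ, x ∈ St B ∧ {g : C(Star, Star) | ∀ t, g t ∈ St B} ⊆ e ⁻¹' (K n) :=
    fun n => nhds_const (he.continuous.continuousAt (hK n))
  choose B hB hBK using h2
  obtain ⟨A, hA, hAB⟩ := exists_pseudo hB
  apply not_compact hA
  have h3 : IsCompact (⋂ n, K n) := (isClosed_iInter hKc).isCompact
  have h4 : (⋂ n, K n) ⊆ range e := by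
    rw [hOe]
    exact iInter_mono hKO
  have h5 : IsCompact (e ⁻¹' ⋂ n, K n) := he.isInducing.isCompact_preimage' h3 h4
  refine h5.of_isClosed_subset ?_ ?_
  · have : {f : C(Star, Star) | ∀ t, f t ∈ St A} = ⋂ t, {f : C(Star, Star) | f t ∈ St A} := by
      ext f; simp
    rw [this]
    exact isClosed_iInter fun t => (isClopen_St A).isClosed.preimage (continuous_eval_const t)
  · intro g hg
    exact mem_iInter.2 fun n => hBK n fun t => hAB n (hg t)

end Pool.Agent.Results.MP_7e6923_gt.NotCechComplete
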